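import Mathlib
import Pool.Agent.H.MP_9e58cf_an.A

set_option autoImplicit false

namespace Pool.Agent.Results.MP_9e58cf_an.Counter

open scoped InnerProductSpace

/-- Trace class: the diagonal of the modulus of A is summable in some orthonormal basis. -/
def TraceClass {H : Type} [NormedAddCommGroup H] [InnerProductSpace ℂ H] [CompleteSpace H]
    (A : H →L[ℂ] H) : Prop :=
  ∃ (ι : Type) (b : HilbertBasis ι ℂ H),
    Summable fun i => inner ℂ (b i) (CFC.sqrt (star A * A) (b i))

open Pool.Agent.H.MP_9e58cf_an InnerProductSpace in
theorem result :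
    ∃ (H : Type) (_ : NormedAddCommGroup H) (_ : InnerProductSpace ℂ H) (_ : CompleteSpace H)
      (T S : H →L[ℂ] H),
      TraceClass (1 - star T * T) ∧
      S ∈ Set.centralizer (Set.centralizer ({T} : Set (H →L[ℂ] H))) ∧
      ContinuousLinearMapWOT.ofCLM S ∉
        closure (ContinuousLinearMapWOT.ofCLM ''
          (Submodule.span ℂ (resolvent T '' resolventSet ℂ T) : Set (H →L[ℂ] H))) := by
  let b : HilbertBasis (Option ℤ) ℂ (lp (fun _ : Option ℤ => ℂ) 2) := default
  refine ⟨lp (fun _ : Option ℤ => ℂ) 2, inferInstance, inferInstance, inferInstance, 1 + B b,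
    rankOne ℂ (b none) (b none), ⟨Option ℤ, b, trace_summable b _ (defect_summable b)⟩, ?_, ?_⟩
  · intro X hX
    apply P_comm
    have := hX (1 + B b) rfl
    rwa [add_mul, mul_add, one_mul, mul_one, add_right_inj] at this
  · intro hcl
    have hc : IsClosed {A : lp (fun _ : Option ℤ => ℂ) 2 →WOT[ℂ] lp (fun _ : Option ℤ => ℂ) 2 |
        innerSL ℂ (b (some 0)) (A (b (some 0))) = innerSL ℂ (b none) (A (b none))} :=
      isClosed_eq (ContinuousLinearMapWOT.continuous_dual_apply _ _)
        (ContinuousLinearMapWOT.continuous_dual_apply _ _)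
    have h := closure_minimal ?_ hc hcl
    · simp only [Set.mem_ofPred_eq, ContinuousLinearMapWOT.ofCLM_apply, innerSL_apply_apply,
        rankOne_apply, inner_b, reduceCtorEq, if_false, if_true, zero_smul, one_smul,
        inner_zero_right] at h
      exact zero_ne_one h
    · rintro _ ⟨A, hA, rfl⟩
      simp only [Set.mem_ofPred_eq, ContinuousLinearMapWOT.ofCLM_apply, innerSL_apply_apply]
      induction hA using Submodule.span_induction with
      | mem R hR =>
        obtain ⟨z, hz, rfl⟩ := hR
        apply res_eq b _ (z - 1)
        intro x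
        have h1 : (algebraMap ℂ _ z - (1 + B b)) * resolvent (1 + B b) z = 1 :=
          Ring.mul_inverse_cancel _ hz
        have h2 := congrArg (fun Y => Y x) h1
        simp only [mul_apply_eq_comp, one_apply_eq_self, _root_.sub_apply, _root_.add_apply,
          Algebra.algebraMap_eq_smul_one, _root_.smul_apply] at h2
        rw [sub_smul, one_smul, sub_sub]
        exact h2
      | zero => simp
      | add X Y _ _ hX hY => simp only [_root_.add_apply, inner_add_right, hX, hY]
      | smul c X _ hX => simp only [_root_.smul_apply, inner_smul_right, hX]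

end Pool.Agent.Results.MP_9e58cf_an.Counter
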